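import Mathlib
import Pool.Agent.H62.HE.Defs

/-!
# Module NTs of MP_6b5a9a_nt: no torsion in the kernel of reduction above `2`
-/

open Polynomial

namespace Pool.Agent.H14.HE

open Pool.Agent.H62.HE

universe u

section

variable {k : Type u} [Field k] {Γ₀ : Type u} [LinearOrderedCommGroupWithZero Γ₀]

lemma v_nat_le (v : Valuation k Γ₀) (n : ℕ) : v (n : k) ≤ 1 := by
  induction n with
  | zero => simp
  | succ n ih =>
    rw [Nat.cast_add, Nat.cast_one]
    exact (v.map_add _ _).trans (max_le ih (by simp))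

lemma v_odd (v : Valuation k Γ₀) (h2 : v 2 < 1) (m : ℕ) : v ((2 * m + 1 : ℕ) : k) = 1 := by
  have h : v ((2 : k) * m) < v 1 := by
    rw [map_mul, map_one]
    calc v 2 * v (m : k) ≤ v 2 * 1 := by gcongr; exact v_nat_le v m
      _ < 1 := by rwa [mul_one]
  have := v.map_add_eq_of_lt_left h
  rw [map_one] at this
  push_cast
  rw [add_comm]
  exact this

lemma v_four_lt [CharZero k] (v : Valuation k Γ₀) (h2 : v 2 < 1) {l : ℕ} (hl : l.Prime) :
    v (4 : k) < v (l : k) := by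
  have h4 : v (4 : k) = v 2 * v 2 := by rw [← map_mul]; norm_num
  have h0 : (0 : Γ₀) < v 2 := by
    rw [zero_lt_iff]; exact (v.ne_zero_iff).2 two_ne_zero
  have h42 : v (4 : k) < v 2 := by
    rw [h4]
    calc v 2 * v 2 < v 2 * 1 := by
          exact mul_lt_mul_of_pos_left h2 h0
      _ = v 2 := mul_one _
  rcases hl.eq_two_or_odd' with rfl | ⟨m, rfl⟩
  · simpa using h42
  · rw [v_odd v h2 m]
    exact h42.trans h2

/-- coefficient condition -/
def Sm (v : Valuation k Γ₀) (t : Γ₀) (P : k[X]) : Prop :=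
  P.coeff 0 = 1 ∧ ∀ i, 1 ≤ i → v (P.coeff i) < t ^ i

lemma Sm.one {v : Valuation k Γ₀} {t : Γ₀} (ht : 0 < t) : Sm v t 1 := by
  refine ⟨by simp, fun i hi => ?_⟩
  rw [coeff_one, if_neg (by omega), map_zero]
  exact pow_pos ht i

lemma Sm.mul {v : Valuation k Γ₀} {t : Γ₀} (ht : 0 < t) {P Q : k[X]} (hP : Sm v t P)
    (hQ : Sm v t Q) : Sm v t (P * Q) := by
  refine ⟨by rw [mul_coeff_zero, hP.1, hQ.1, one_mul], fun n hn => ?_⟩
  rw [coeff_mul]
  refine v.map_sum_lt (pow_pos ht n).ne' fun x hx => ?_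
  replace hx := Finset.HasAntidiagonal.mem_antidiagonal.1 hx
  rw [map_mul]
  rcases Nat.eq_zero_or_pos x.1 with h1 | h1
  · rw [h1, hP.1, map_one, one_mul, show x.2 = n by omega]
    exact hQ.2 n hn
  rcases Nat.eq_zero_or_pos x.2 with h2 | h2
  · rw [h2, hQ.1, map_one, mul_one, show x.1 = n by omega]
    exact hP.2 n hn
  rw [← hx, pow_add]
  exact mul_lt_mul'' (hP.2 _ h1) (hQ.2 _ h2) zero_le zero_le

lemma Sm.lin {v : Valuation k Γ₀} {t : Γ₀} (ht : 0 < t) {y : k} (hy : v y < t) :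
    Sm v t (1 - C y * X) := by
  refine ⟨by simp, fun i hi => ?_⟩
  rw [coeff_sub, coeff_one, if_neg (by omega), zero_sub, Valuation.map_neg, coeff_C_mul, coeff_X]
  rcases eq_or_ne 1 i with rfl | h
  · simpa using hy
  · rw [if_neg h, mul_zero, map_zero]; exact pow_pos ht i

lemma Sm.prod {ι : Type u} [Fintype ι] {v : Valuation k Γ₀} {t : Γ₀} (ht : 0 < t) {y : ι → k}
    (hy : ∀ i, v (y i) < t) : Sm v t (∏ i, (1 - C (y i) * X)) := by
  classical
  exact Finset.prod_induction _ (Sm v t) (fun _ _ => Sm.mul ht) (Sm.one ht)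
    (fun i _ => Sm.lin ht (hy i))

end

/-- descent with the extraction lemma -/
lemma descend (hPL : T_PL.{u}) (k : Type u) [Field k] [CharZero k] (Γ₀ : Type u)
    [LinearOrderedCommGroupWithZero Γ₀] (v : Valuation k Γ₀) (g : ℕ) (f : k[X]) (h2 : v 2 < 1)
    (hf : f.Monic) (hd : f.natDegree = 2 * g + 1) (hi : ∀ i, v (f.coeff i) ≤ 1) (U W : k[X])
    (hU1 : 1 ≤ U.natDegree) (hU0 : U.coeff 0 = 1)
    (hUi : ∀ i, 1 ≤ i → v (U.coeff i) < v (4 : k) ^ (2 * i)) :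
    ∀ N : ℕ, 1 ≤ N → ∀ (a b : k[X]) (c : k), U ^ N ∣ W ^ 2 - f → c ≠ 0 →
      a ^ 2 - f * b ^ 2 = C c * U ^ N → U ^ N ∣ a + b * W →
      ∃ (a' b' : k[X]) (c' : k), c' ≠ 0 ∧ a' ^ 2 - f * b' ^ 2 = C c' * U := by
  intro N
  induction N using Nat.strong_induction_on with
  | _ N ih =>
    intro hN a b c hW hc hab haW
    rcases Nat.lt_or_ge 1 N with h1 | h1
    · have hp : (N.minFac).Prime := Nat.minFac_prime (by omega)
      obtain ⟨j, hj⟩ : N.minFac ∣ N := Nat.minFac_dvd N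
      have hj0 : 1 ≤ j := by
        rcases Nat.eq_zero_or_pos j with h | h
        · rw [h] at hj; omega
        · exact h
      have hjN : j < N := by
        rw [hj]; nlinarith [hp.two_le]
      have h4 : v (4 : k) < 1 := (v_four_lt v h2 Nat.prime_two).trans (by simpa using h2)
      rw [hj] at hW hab haW
      obtain ⟨a', b', c', hc', hab', haW'⟩ := hPL k Γ₀ v g f hf hd hi 4 (by norm_num) h4
        N.minFac j hp.one_lt.le hj0 (v_four_lt v h2 hp) U W a b c hU1 hU0 hUi hW hc hab haW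
      refine ih j hjN hj0 a' b' c' ((pow_dvd_pow U ?_).trans hW) hc' hab' haW'
      nlinarith [hp.two_le]
    · obtain rfl : N = 1 := by omega
      exact ⟨a, b, c, hc, by simpa using hab⟩

theorem nts (hPL : T_PL.{u}) (hIDL : T_IDL.{u}) : T_NTs.{u} := by
  intro k _ _ Γ₀ _ v g f h2 hf hd ρ hρ hρ1 hint ι _ _ x hx w N hN hu hcop hprin
  classical
  have hu0 : (∏ i, (X - C (x i)) : k[X]) ≠ 0 := (monic_prod_of_monic _ _ fun i _ => monic_X_sub_C _).ne_zero
  obtain ⟨W, a, b, c, hc, -, hWf, haW, hab⟩ := hIDL k f _ w N hu0 hN hu hcop hprin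
  have hx0 : ∀ i, x i ≠ 0 := by
    intro i h
    have := hx i
    rw [h, map_zero] at this
    exact not_lt_zero this
  set r : k := (ρ ^ 2)⁻¹ with hr
  have hr0 : r ≠ 0 := inv_ne_zero (pow_ne_zero 2 hρ)
  have hrρ : r * ρ ^ 2 = 1 := inv_mul_cancel₀ (pow_ne_zero 2 hρ)
  set φ : k[X] →+* k[X] := compRingHom (C r * X) with hφ
  set ψ : k[X] →+* k[X] := compRingHom (C (ρ ^ 2) * X) with hψ
  have hφc : ∀ (p : k[X]) i, (φ p).coeff i = p.coeff i * r ^ i := by
    intro p i; rw [hφ, coe_compRingHom_apply, comp_C_mul_X_coeff]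
  have hφC : ∀ y : k, φ (C y) = C y := by intro y; rw [hφ, coe_compRingHom_apply, C_comp]
  have hψC : ∀ y : k, ψ (C y) = C y := by intro y; rw [hψ, coe_compRingHom_apply, C_comp]
  have hφX : φ X = C r * X := by rw [hφ, coe_compRingHom_apply, X_comp]
  have hψX : ψ X = C (ρ ^ 2) * X := by rw [hψ, coe_compRingHom_apply, X_comp]
  have hψφ : ∀ p, ψ (φ p) = p := by
    intro p
    have : (ψ.comp φ) = RingHom.id _ := by
      refine Polynomial.ringHom_ext (fun y => ?_) ?_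
      · simp [hφC, hψC]
      · rw [RingHom.comp_apply, hφX, map_mul, hψC, hψX, ← mul_assoc, ← C_mul, hrρ, C_1, one_mul]
        rfl
    exact RingHom.congr_fun this p
  set n := 2 * g + 1 with hn
  set f' : k[X] := C (ρ ^ (2 * n)) * φ f with hf'
  have hf'c : ∀ i, f'.coeff i = ρ ^ (2 * n) * (f.coeff i * r ^ i) := by
    intro i; rw [hf', coeff_C_mul, hφc]
  have hf'top : f'.coeff n = 1 := by
    rw [hf'c]
    have : f.coeff n = 1 := by rw [← hd]; exact hf.coeff_natDegree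
    rw [this, one_mul, pow_mul, ← mul_pow, mul_comm, hrρ, one_pow]
  have hf'0 : ∀ i, n < i → f'.coeff i = 0 := by
    intro i hi
    rw [hf'c, coeff_eq_zero_of_natDegree_lt (by omega)]; ring
  have hf'd : f'.natDegree = n := by
    refine le_antisymm (natDegree_le_iff_coeff_eq_zero.2 hf'0) (le_natDegree_of_ne_zero ?_)
    rw [hf'top]; exact one_ne_zero
  have hf'm : f'.Monic := by
    rw [Monic, leadingCoeff, hf'd, hf'top]
  have hf'i : ∀ i, v (f'.coeff i) ≤ 1 := by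
    intro i
    rcases lt_trichotomy i n with h | h | h
    · have h3 := hint i (by omega)
      rw [hf'c]
      have : ρ ^ (2 * n) * (f.coeff i * r ^ i) = ρ ^ (2 * (n - i)) * f.coeff i := by
        have h4 : ρ ^ (2 * n) = ρ ^ (2 * (n - i)) * (ρ ^ 2) ^ i := by
          rw [← pow_mul, ← pow_add]; congr 1; omega
        have h5 : (ρ ^ 2) ^ i * r ^ i = 1 := by rw [← mul_pow, mul_comm, hrρ, one_pow]
        rw [h4]
        linear_combination (ρ ^ (2 * (n - i)) * f.coeff i) * h5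
      rw [this]; exact h3
    · rw [h, hf'top, map_one]
    · rw [hf'0 i h, map_zero]; exact zero_le
  -- the polynomial U
  set y : ι → k := fun i => (ρ ^ 2 * x i)⁻¹ with hy
  have h40 : (4 : k) ≠ 0 := by norm_num
  have ht : (0 : Γ₀) < v 4 ^ 2 := pow_pos (by rw [zero_lt_iff]; exact (v.ne_zero_iff).2 h40) 2
  have hyv : ∀ i, v (y i) < v 4 ^ 2 := by
    intro i
    have h3 := hx i
    have hz : (0 : Γ₀) < v (ρ ^ 2 * x i) := by
      rw [zero_lt_iff]; exact (v.ne_zero_iff).2 (mul_ne_zero (pow_ne_zero 2 hρ) (hx0 i))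
    have h5 : (1 : Γ₀) < v 4 ^ 2 * v (ρ ^ 2 * x i) := by
      have h6 : (0 : Γ₀) < v ((4 * ρ) ^ 2) := by
        rw [zero_lt_iff]; exact (v.ne_zero_iff).2 (pow_ne_zero 2 (mul_ne_zero h40 hρ))
      calc (1 : Γ₀) = v ((4 * ρ) ^ 2) * v (((4 * ρ) ^ 2)⁻¹) := by
            rw [← map_mul, mul_inv_cancel₀ (pow_ne_zero 2 (mul_ne_zero h40 hρ)), map_one]
        _ < v ((4 * ρ) ^ 2) * v (x i) := mul_lt_mul_of_pos_left h3 h6
        _ = v 4 ^ 2 * v (ρ ^ 2 * x i) := by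
            rw [← map_pow, ← map_mul, ← map_mul]; congr 1; ring
    change v ((ρ ^ 2 * x i)⁻¹) < _
    rw [map_inv₀]
    calc (v (ρ ^ 2 * x i))⁻¹ = (v (ρ ^ 2 * x i))⁻¹ * 1 := (mul_one _).symm
      _ < (v (ρ ^ 2 * x i))⁻¹ * (v 4 ^ 2 * v (ρ ^ 2 * x i)) := by
          refine mul_lt_mul_of_pos_left h5 ?_
          rw [zero_lt_iff]; exact inv_ne_zero hz.ne'
      _ = v 4 ^ 2 := by
          rw [mul_comm (v 4 ^ 2), ← mul_assoc, inv_mul_cancel₀ hz.ne', one_mul]
  set U : k[X] := ∏ i, (1 - C (y i) * X) with hU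
  have hSm : Sm v (v 4 ^ 2) U := Sm.prod ht hyv
  have hUi : ∀ i, 1 ≤ i → v (U.coeff i) < v (4 : k) ^ (2 * i) := by
    intro i hi; rw [pow_mul]; exact hSm.2 i hi
  have hy0 : ∀ i, y i ≠ 0 := fun i => inv_ne_zero (mul_ne_zero (pow_ne_zero 2 hρ) (hx0 i))
  have hlin : ∀ i, (1 - C (y i) * X : k[X]).natDegree = 1 := by
    intro i
    have : (1 - C (y i) * X : k[X]) = C (- y i) * X + C 1 := by
      rw [C_neg, C_1]; ring
    rw [this]
    exact natDegree_linear (neg_ne_zero.2 (hy0 i))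
  have hlin0 : ∀ i, (1 - C (y i) * X : k[X]) ≠ 0 := by
    intro i h
    have := hlin i
    rw [h, natDegree_zero] at this
    omega
  have hU1 : 1 ≤ U.natDegree := by
    rw [hU, natDegree_prod _ _ (fun i _ => hlin0 i)]
    simp only [hlin, Finset.sum_const, smul_eq_mul, mul_one]
    exact Finset.card_pos.2 Finset.univ_nonempty
  -- u and U
  set κ : k := ∏ i, (- x i) with hκ
  have hκ0 : κ ≠ 0 := Finset.prod_ne_zero_iff.2 fun i _ => neg_ne_zero.2 (hx0 i)
  have hφu : φ (∏ i, (X - C (x i))) = C κ * U := by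
    rw [map_prod, hκ, map_prod, hU, ← Finset.prod_mul_distrib]
    refine Finset.prod_congr rfl fun i _ => ?_
    rw [map_sub, hφX, hφC]
    have h3 : C r * X = C (x i) * (C (y i) * X) := by
      rw [← mul_assoc, ← C_mul]
      congr 2
      rw [hr, hy]
      field_simp [hx0 i]
    rw [h3, C_neg]; ring
  -- transport
  have hφWf : U ^ N ∣ (C (ρ ^ n) * φ W) ^ 2 - f' := by
    obtain ⟨s, hs⟩ := hWf
    refine ⟨C (ρ ^ (2 * n)) * (C κ ^ N * φ s), ?_⟩
    have h3 := congrArg φ hs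
    rw [map_sub, map_pow, map_mul, map_pow, hφu] at h3
    have h4 : (C (ρ ^ n) : k[X]) ^ 2 = C (ρ ^ (2 * n)) := by
      rw [← C_pow, ← pow_mul, mul_comm]
    rw [mul_pow, h4, hf']
    linear_combination (C (ρ ^ (2 * n)) : k[X]) * h3
  have hφaW : U ^ N ∣ (C (ρ ^ n) * φ a) + φ b * (C (ρ ^ n) * φ W) := by
    obtain ⟨s, hs⟩ := haW
    refine ⟨C (ρ ^ n) * (C κ ^ N * φ s), ?_⟩
    have h3 := congrArg φ hs
    rw [map_add, map_mul, map_mul, map_pow, hφu] at h3
    linear_combination (C (ρ ^ n) : k[X]) * h3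
  have hφab : (C (ρ ^ n) * φ a) ^ 2 - f' * (φ b) ^ 2 = C (ρ ^ (2 * n) * c * κ ^ N) * U ^ N := by
    have h3 := congrArg φ hab
    rw [map_sub, map_pow, map_mul, map_pow, map_mul, map_pow, hφu, hφC] at h3
    have h4 : (C (ρ ^ n) : k[X]) ^ 2 = C (ρ ^ (2 * n)) := by
      rw [← C_pow, ← pow_mul, mul_comm]
    rw [mul_pow, h4, hf', C_mul, C_mul, C_pow (a := κ)]
    linear_combination (C (ρ ^ (2 * n)) : k[X]) * h3
  obtain ⟨a', b', c', hc', hab'⟩ := descend hPL k Γ₀ v g f' h2 hf'm hf'd hf'i U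
    (C (ρ ^ n) * φ W) hU1 hSm.1 hUi N hN (C (ρ ^ n) * φ a) (φ b) (ρ ^ (2 * n) * c * κ ^ N)
    hφWf (mul_ne_zero (mul_ne_zero (pow_ne_zero _ hρ) hc) (pow_ne_zero _ hκ0)) hφab hφaW
  refine ⟨ψ a', C (ρ ^ n) * ψ b', c' * κ⁻¹, mul_ne_zero hc' (inv_ne_zero hκ0), ?_⟩
  have h3 := congrArg ψ hab'
  have h5 : ψ U = C κ⁻¹ * ∏ i, (X - C (x i)) := by
    have h6 := congrArg ψ hφu
    rw [hψφ, map_mul, hψC] at h6
    rw [h6, ← mul_assoc, ← C_mul, inv_mul_cancel₀ hκ0, C_1, one_mul]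
  rw [map_sub, map_pow, map_mul, map_pow, hf', map_mul, hψC, hψφ, map_mul, hψC, h5] at h3
  have h4 : (C (ρ ^ n) : k[X]) ^ 2 = C (ρ ^ (2 * n)) := by
    rw [← C_pow, ← pow_mul, mul_comm]
  rw [mul_pow, h4, C_mul]
  linear_combination h3

end Pool.Agent.H14.HE
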